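import Pool.Agent.H78.S.Targets

/-!
Row GMA of sgt_modules (MP_9d0bb7_lc).
-/

set_option autoImplicit false

open Set Pool.Agent.H77.BC Matrix
open scoped Pointwise

namespace Pool.Agent.H73.SG

open Pool.Agent.H78.S

theorem pf_GMA (hRNK : T_RNK) (hBGA : T_BGA) (hORM : T_ORM) (hHIC : T_HIC) : T_GMA := by
  intro M U G S _ _ _ _ m x hF hN ω hω K _ y hC
  have := hF.dg
  have := hF.ful
  have irr : Irr U (univ : Set S) := (hRNK U x hF).1
  have hint := (hBGA U (univ : Set S) irr).1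
  have htr : ∀ (g : G) (X : Set S), Big U univ X → Big U univ (g • X) := by
    intro g X hX
    have h := (hORM U hF.act g (univ : Set S) X).2.2.1 irr.1 hX
    rwa [Set.smul_set_univ] at h
  refine ⟨?_, ?_, ?_, ?_⟩
  · rintro g h A B ⟨Bg, hBg, hg⟩ ⟨Bh, hBh, hh⟩
    refine ⟨Bh ∩ h⁻¹ • Bg, hint _ _ hBh (htr _ _ hBg), ?_⟩
    rintro z ⟨hz1, hz2⟩
    have hz3 : h • z ∈ Bg := by
      rw [Set.mem_smul_set_iff_inv_smul_mem, inv_inv] at hz2
      exact hz2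
    obtain ⟨hzx, hhx, c', hc', e'⟩ := hh z hz1
    obtain ⟨_, hgx, c, hc, e⟩ := hg (h • z) hz3
    refine ⟨hzx, ?_, c * c', mul_ne_zero hc hc', ?_⟩
    · rw [mul_smul]; exact hgx
    · rw [mul_smul, e, e', Matrix.mulVec_smul, Matrix.mulVec_mulVec, smul_smul]
      rfl
  · rintro g A ⟨B, hB, hg⟩
    refine ⟨g • B, htr _ _ hB, ?_⟩
    rintro z ⟨w, hw, rfl⟩
    obtain ⟨hwx, hgx, c, hc, e⟩ := hg w hw
    refine ⟨hgx, ?_, c⁻¹, inv_ne_zero hc, ?_⟩
    · simpa using hwx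
    · have e2 : g⁻¹ • (fun s => g • s) w = w := by simp
      rw [e2]
      show hv y w = c⁻¹ • ((A⁻¹).val *ᵥ hv y (g • w))
      rw [e, Matrix.mulVec_smul, smul_smul, inv_mul_cancel₀ hc, one_smul, Matrix.mulVec_mulVec,
        Units.inv_mul, Matrix.one_mulVec]
  · have h1 : (1 : Fin (m + 1 + 2)) ≠ 0 := by
      intro h
      have := congrArg Fin.val h
      simp at this
    refine ⟨XX U G x 1, (hHIC U x hF 1 h1).2.1, ?_⟩
    intro z hz
    refine ⟨hz, by rwa [one_smul], 1, one_ne_zero, ?_⟩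
    rw [one_smul, one_smul, Units.val_one, Matrix.one_mulVec]
  · rintro g A B c hc ⟨Z, hZ, hg⟩ hBA
    refine ⟨Z, hZ, ?_⟩
    intro z hz
    obtain ⟨hzx, hgx, c', hc', e⟩ := hg z hz
    refine ⟨hzx, hgx, c' * c⁻¹, mul_ne_zero hc' (inv_ne_zero hc), ?_⟩
    rw [e, hBA, Matrix.smul_mulVec, smul_smul, mul_assoc, inv_mul_cancel₀ hc, mul_one]

end Pool.Agent.H73.SG
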