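import Pool.Agent.H78.S.Targets

/-!
Row GMB of sgt_modules (MP_9d0bb7_lc).
-/

set_option autoImplicit false

open Set Pool.Agent.H77.BC Matrix
open scoped Pointwise

namespace Pool.Agent.H73.SG

open Pool.Agent.H78.S

/-- a nonscalar matrix: eigenvectors lie on hyperplanes -/
theorem exi_phi {K : Type} [Field K] {d : ℕ} (N : Matrix (Fin d) (Fin d) K) (μ : K)
    (h : N ≠ μ • (1 : Matrix (Fin d) (Fin d) K)) :
    ∃ φ : Fin d → K, φ ≠ 0 ∧ ∀ v, N *ᵥ v = μ • v → φ ⬝ᵥ v = 0 := by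
  have h0 : N - μ • (1 : Matrix (Fin d) (Fin d) K) ≠ 0 := sub_ne_zero.mpr h
  have : ∃ i, (N - μ • (1 : Matrix (Fin d) (Fin d) K)) i ≠ 0 := by
    by_contra hc
    push Not at hc
    exact h0 (funext hc)
  obtain ⟨i, hi⟩ := this
  refine ⟨(N - μ • (1 : Matrix (Fin d) (Fin d) K)) i, hi, ?_⟩
  intro v hv
  have h1 : (N - μ • (1 : Matrix (Fin d) (Fin d) K)) *ᵥ v = 0 := by
    rw [Matrix.sub_mulVec, Matrix.smul_mulVec, Matrix.one_mulVec, hv, sub_self]
  exact congrFun h1 i

theorem pf_GMB (hHYP : T_HYP) (hBGA : T_BGA) (hRNK : T_RNK) (hZER : T_ZER) (hGMA : T_GMA) :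
    T_GMB := by
  intro M U G S _ _ _ _ m x hF hN ω hω K _ y hC
  have irr : Irr U (univ : Set S) := (hRNK U x hF).1
  have hint := (hBGA U (univ : Set S) irr).1
  obtain ⟨hmul, hinv, hone, hsc⟩ := hGMA U x hF hN ω hω K y hC
  refine ⟨?_, ?_⟩
  · intro g A B hA hB
    by_contra hcon
    push Not at hcon
    obtain ⟨Z, hZ, hz⟩ := hmul g⁻¹ g A⁻¹ B (hinv g A hA) hB
    set N : GL (Fin (m + 1 + 1)) K := A⁻¹ * B with hNdef
    have hns : ∀ μ : K, N.val ≠ μ • (1 : Matrix (Fin (m + 1 + 1)) (Fin (m + 1 + 1)) K) := by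
      intro μ hμ
      have hB2 : (B.val : Matrix (Fin (m + 1 + 1)) (Fin (m + 1 + 1)) K) = μ • A.val := by
        have e1 : A.val * N.val = B.val := by
          rw [hNdef, Units.val_mul, ← mul_assoc, Units.mul_inv, one_mul]
        rw [← e1, hμ, Matrix.mul_smul, Matrix.mul_one]
      have hμ0 : μ ≠ 0 := by
        intro h0
        have e2 : N.val * (N⁻¹).val = 1 := Units.mul_inv N
        rw [hμ, h0, zero_smul, Matrix.zero_mul] at e2
        have := congrFun (congrFun e2 0) 0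
        simp at this
      exact hcon μ hμ0 hB2
    have hex : ∀ μ : K, ∃ φ : Fin (m + 1 + 1) → K, φ ≠ 0 ∧ ∀ v, N.val *ᵥ v = μ • v →
        φ ⬝ᵥ v = 0 := fun μ => exi_phi N.val μ (hns μ)
    choose φ hφ0 hφ using hex
    have hfin : ∀ s : Finset K, Big U univ {z | z ∈ Z ∧ ∀ μ ∈ s, φ μ ⬝ᵥ hv y z ≠ 0} := by
      classical
      intro s
      induction s using Finset.induction_on with
      | empty =>
        have : {z | z ∈ Z ∧ ∀ μ ∈ (∅ : Finset K), φ μ ⬝ᵥ hv y z ≠ 0} = Z := by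
          ext z; simp
        rw [this]; exact hZ
      | insert a s _ ih =>
        have h2 := hHYP U x hF hN ω hω K y hC (φ a) (hφ0 a)
        obtain ⟨Y, hY1, hY2, hY3, hY4, hY5⟩ := hint _ _ ih h2
        refine ⟨Y, hY1, hY2, hY3, ?_, hY5⟩
        intro z hzY
        obtain ⟨⟨h3, h4⟩, h5, h6⟩ := hY4 hzY
        refine ⟨h3, ?_⟩
        intro μ hμ
        rcases Finset.mem_insert.mp hμ with rfl | hμ
        · exact h6
        · exact h4 μ hμ
    classical
    obtain ⟨Y, _, ⟨z, hzY⟩, _, hY4, _⟩ := hfin N.val.charpoly.roots.toFinset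
    obtain ⟨hzZ, hzall⟩ := hY4 hzY
    obtain ⟨_, _, c, hc, e⟩ := hz z hzZ
    rw [inv_mul_cancel, one_smul] at e
    have e3 : N.val *ᵥ hv y z = c⁻¹ • hv y z := by
      conv_rhs => rw [e]
      rw [smul_smul, inv_mul_cancel₀ hc, one_smul]
    have hroot : c⁻¹ ∈ N.val.charpoly.roots.toFinset := by
      rw [Multiset.mem_toFinset, Polynomial.mem_roots (Matrix.charpoly_monic _).ne_zero,
        Polynomial.IsRoot.def, Matrix.eval_charpoly]
      rw [← Matrix.exists_mulVec_eq_zero_iff]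
      refine ⟨hv y z, ?_, ?_⟩
      · intro h0
        have := congrFun h0 0
        simp [hv] at this
      · rw [Matrix.sub_mulVec, e3, sub_eq_zero]
        rw [Matrix.scalar_apply]
        ext i
        simp [Matrix.mulVec_diagonal]
    exact hzall _ hroot (hφ _ _ e3)
  · intro g h A hg hh
    have hk : Gm U G x y (h⁻¹ * g) (A⁻¹ * A) := hmul _ _ _ _ (hinv h A hh) hg
    rw [inv_mul_cancel] at hk
    obtain ⟨Z, hZ, hz⟩ := hk
    have hfix : ∀ z ∈ Z, (h⁻¹ * g) • z = z := by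
      intro z hzZ
      obtain ⟨h1, h2, c, hc, e⟩ := hz z hzZ
      rw [Units.val_one, Matrix.one_mulVec] at e
      have hc1 : c = 1 := by
        have := congrFun e 0
        simp [hv] at this
        exact this.symm
      rw [hc1, one_smul] at e
      have e4 : y ((h⁻¹ * g) • z) = y z := by
        funext l
        have := congrFun e l.succ
        simpa [hv] using this
      obtain ⟨z0, _, hun⟩ := hC.bij (y z)
      rw [hun _ ⟨h2, e4⟩, hun z ⟨h1, rfl⟩]
    have := hZER U x hF (h⁻¹ * g) ⟨Z, hZ, hfix⟩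
    exact (inv_mul_eq_one.mp this).symm

end Pool.Agent.H73.SG
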